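import Pool.Agent.J4H20.CI.Stm

/-! Project CI (helper20), job LAT (helper71): a basis of the period lattice of one orbit. -/

open scoped Topology ContDiff Manifold
open Set Metric Module

noncomputable section

namespace Pool.Agent.J4H71.CI

open Pool.Agent.J4H20.CI

set_option linter.unusedSectionVars false

universe u v

section lin

variable {m : ℕ}

/-- orthogonal decomposition with respect to a subspace of `ℝ^m` -/
lemma decomp (K : Submodule ℝ (Fin m → ℝ)) (w : Fin m → ℝ) :
    ∃ k ∈ K, ∃ v : Fin m → ℝ, (∀ c ∈ K, ∑ i, c i * v i = 0) ∧ w = k + v := by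
  set e := (EuclideanSpace.equiv (Fin m) ℝ) with he
  obtain ⟨y, hy, z, hz, hyz⟩ := Submodule.exists_add_mem_mem_orthogonal
    (K := K.comap (e : EuclideanSpace ℝ (Fin m) →ₗ[ℝ] (Fin m → ℝ))) (e.symm w)
  refine ⟨e y, hy, e z, ?_, ?_⟩
  · intro c hc
    have h0 : e.symm c ∈ K.comap (e : EuclideanSpace ℝ (Fin m) →ₗ[ℝ] (Fin m → ℝ)) := by
      show e (e.symm c) ∈ K
      rw [e.apply_symm_apply]
      exact hc
    have h1 := (Submodule.mem_orthogonal _ _).1 hz _ h0
    rw [PiLp.inner_apply] at h1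
    calc ∑ i, c i * (e z) i = ∑ i, inner ℝ ((e.symm c).ofLp i) (z.ofLp i) := by
          refine Finset.sum_congr rfl fun i _ => ?_
          show c i * z.ofLp i = z.ofLp i * c i
          ring
      _ = 0 := h1
  · rw [← map_add, ← hyz, e.apply_symm_apply]

end lin

section VA

variable {E : Type u} [NormedAddCommGroup E] [NormedSpace ℝ E] [FiniteDimensional ℝ E]
  {N : Type v} [TopologicalSpace N] [ChartedSpace E N] [IsManifold 𝓘(ℝ, E) ∞ N] {m : ℕ}

lemma mem_perp (A : VA E N m) (y : N) (s : Fin m → ℝ) :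
    s ∈ A.perp y ↔ ∀ c ∈ LinearMap.ker (A.XL y), ∑ i, c i * s i = 0 := Iff.rfl

lemma ker_inf_perp (A : VA E N m) (y : N) {s : Fin m → ℝ} (h1 : s ∈ LinearMap.ker (A.XL y))
    (h2 : s ∈ A.perp y) : s = 0 := by
  have h3 : ∑ i, s i * s i = 0 := h2 s h1
  funext i
  have h4 := (Finset.sum_eq_zero_iff_of_nonneg (fun i _ => mul_self_nonneg (s i))).1 h3 i
    (Finset.mem_univ i)
  exact mul_self_eq_zero.1 h4

lemma isCompl (A : VA E N m) (y : N) : IsCompl (LinearMap.ker (A.XL y)) (A.perp y) := by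
  constructor
  · rw [Submodule.disjoint_def]
    intro s h1 h2
    exact ker_inf_perp A y h1 h2
  · rw [codisjoint_iff, eq_top_iff]
    intro w _
    obtain ⟨k, hk, v, hv, h⟩ := decomp (LinearMap.ker (A.XL y)) w
    rw [h]
    exact Submodule.add_mem_sup hk hv

lemma finrank_perp (A : VA E N m) (y : N) : finrank ℝ (A.perp y) = A.od y := by
  have h1 := Submodule.finrank_add_eq_of_isCompl (isCompl A y)
  have h2 := LinearMap.finrank_range_add_finrank_ker (A.XL y)
  show finrank ℝ (A.perp y) = finrank ℝ (LinearMap.range (A.XL y))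
  omega

lemma act_ker [T2Space N] (A : VA E N m) {y : N} {k : Fin m → ℝ}
    (hk : k ∈ LinearMap.ker (A.XL y)) : A.act k y = y :=
  A.act_eq_of_X_eq_zero hk

lemma act_neg_fix (A : VA E N m) {y : N} {s : Fin m → ℝ} (h : A.act s y = y) :
    A.act (-s) y = y := by
  conv_lhs => rw [← h]
  rw [← A.add, neg_add_cancel, A.zero]

lemma act_add_fix (A : VA E N m) {y : N} {s t : Fin m → ℝ} (h : A.act s y = y)
    (h' : A.act t y = y) : A.act (s + t) y = y := by
  rw [A.add, h', h]

lemma act_sub_fix (A : VA E N m) {y : N} {s t : Fin m → ℝ} (h : A.act s y = y)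
    (h' : A.act t y = y) : A.act (s - t) y = y := by
  rw [sub_eq_add_neg]
  exact act_add_fix A h (act_neg_fix A h')

/-- the lattice as a `ℤ`-submodule of `perp y` -/
def LV (A : VA E N m) (y : N) : Submodule ℤ (A.perp y) :=
  AddSubgroup.toIntSubmodule
    { carrier := {s | A.act (s : Fin m → ℝ) y = y}
      add_mem' := by
        intro s t hs ht
        exact act_add_fix A hs ht
      zero_mem' := A.zero y
      neg_mem' := by
        intro s hs
        exact act_neg_fix A hs }

lemma mem_LV (A : VA E N m) (y : N) (s : A.perp y) :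
    s ∈ LV A y ↔ A.act (s : Fin m → ℝ) y = y := Iff.rfl

theorem t_LAT : S_LAT.{u, v} := by
  intro E _ _ _ N _ _ _ _ m A y hco hdisc
  obtain ⟨R, hR⟩ := hco
  obtain ⟨ε, hε, hdisc⟩ := hdisc
  -- discreteness
  have : DiscreteTopology (LV A y) := by
    rw [discreteTopology_iff_isOpen_singleton_zero]
    have h1 : ({0} : Set (LV A y)) = (fun s : LV A y => ‖((s : A.perp y) : Fin m → ℝ)‖) ⁻¹' (Iio ε) := by
      ext s
      constructor
      · intro h
        rw [mem_singleton_iff] at h
        rw [h]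
        simpa using hε
      · intro h
        have h2 : ((s : A.perp y) : Fin m → ℝ) = 0 := hdisc _ (s : A.perp y).2 h s.2
        rw [mem_singleton_iff]
        exact Subtype.ext (Subtype.ext h2)
    rw [h1]
    exact isOpen_Iio.preimage (by fun_prop)
  -- spanning
  have : IsZLattice ℝ (LV A y) := by
    refine ⟨?_⟩
    by_contra hne
    obtain ⟨f, hf0, hf⟩ := Submodule.exists_le_ker_of_lt_top
      (Submodule.span ℝ ((LV A y : Submodule ℤ (A.perp y)) : Set (A.perp y))) (lt_top_iff_ne_top.2 hne)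
    obtain ⟨w, hw⟩ : ∃ w, f w ≠ 0 := by
      by_contra h
      push Not at h
      exact hf0 (LinearMap.ext h)
    let π : (Fin m → ℝ) →ₗ[ℝ] A.perp y := (A.perp y).projectionOnto _ (isCompl A y).symm
    have hπk : ∀ k ∈ LinearMap.ker (A.XL y), π k = 0 := fun k hk =>
      Submodule.projectionOnto_apply_right (isCompl A y).symm ⟨k, hk⟩
    have hπv : ∀ v : A.perp y, π (v : Fin m → ℝ) = v := fun v =>
      Submodule.projectionOnto_apply_left (isCompl A y).symm v
    let F : (Fin m → ℝ) →L[ℝ] ℝ := LinearMap.toContinuousLinearMap (f ∘ₗ π)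
    have hF : ∀ g, A.act g y = y → F g = 0 := by
      intro g hg
      obtain ⟨k, hk, v, hv, h⟩ := decomp (LinearMap.ker (A.XL y)) g
      show f (π g) = 0
      have h1 : π g = ⟨v, hv⟩ := by
        rw [h, map_add, hπk k hk, zero_add]
        exact hπv ⟨v, hv⟩
      rw [h1]
      have h2 : (⟨v, hv⟩ : A.perp y) ∈ LV A y := by
        rw [mem_LV]
        show A.act v y = y
        have h3 : v = g - k := by rw [h]; abel
        rw [h3]
        exact act_sub_fix A hg (act_ker A hk)
      exact hf (Submodule.subset_span h2)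
    have h3 : ∀ t : ℝ, |t| * |f w| ≤ ‖F‖ * R := by
      intro t
      obtain ⟨g, hg, hgR⟩ := hR (t • (w : Fin m → ℝ))
      have h4 : F (t • (w : Fin m → ℝ) - g) = t * f w := by
        rw [map_sub, hF g hg, sub_zero, map_smul, smul_eq_mul]
        show t * f (π w) = _
        rw [hπv]
      calc |t| * |f w| = ‖F (t • (w : Fin m → ℝ) - g)‖ := by rw [h4, Real.norm_eq_abs, abs_mul]
        _ ≤ ‖F‖ * ‖t • (w : Fin m → ℝ) - g‖ := F.le_opNorm _
        _ ≤ ‖F‖ * R := mul_le_mul_of_nonneg_left hgR (norm_nonneg _)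
    have hfw : 0 < |f w| := abs_pos.2 hw
    have h5 := h3 ((‖F‖ * R + 1) / |f w|)
    have h6 : (‖F‖ * R + 1) / |f w| * |f w| ≤ ‖F‖ * R :=
      (mul_le_mul_of_nonneg_right (le_abs_self _) hfw.le).trans h5
    rw [div_mul_cancel₀ _ hfw.ne'] at h6
    linarith
  have : Module.Finite ℤ (LV A y) := ZLattice.module_finite ℝ (LV A y)
  have : Module.Free ℤ (LV A y) := ZLattice.module_free ℝ (LV A y)
  have hcard : Fintype.card (Module.Free.ChooseBasisIndex ℤ (LV A y)) = Fintype.card (Fin (A.od y)) := by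
    rw [← finrank_eq_card_chooseBasisIndex, ZLattice.rank ℝ, finrank_perp, Fintype.card_fin]
  let bz : Basis (Fin (A.od y)) ℤ (LV A y) :=
    (Module.Free.chooseBasis ℤ (LV A y)).reindex (Fintype.equivOfCardEq hcard)
  have hsum : ∀ n : Fin (A.od y) → ℤ, (((∑ i, n i • bz i : LV A y) : A.perp y) : Fin m → ℝ) =
      ∑ i, (n i : ℝ) • ((bz i : A.perp y) : Fin m → ℝ) := by
    intro n
    rw [AddSubmonoidClass.coe_finsetSum, AddSubmonoidClass.coe_finsetSum]
    refine Finset.sum_congr rfl fun i _ => ?_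
    rw [Int.cast_smul_eq_zsmul]
    rfl
  refine ⟨fun i => ((bz i : A.perp y) : Fin m → ℝ), ?_, ?_⟩
  · have h1 := (bz.ofZLatticeBasis ℝ (LV A y)).linearIndependent
    have h2 := h1.map' (A.perp y).subtype (Submodule.ker_subtype _)
    have h3 : (fun i => ((bz i : A.perp y) : Fin m → ℝ)) =
        (A.perp y).subtype ∘ (bz.ofZLatticeBasis ℝ (LV A y)) := by
      funext i
      simp
    rw [h3]
    exact h2
  · intro s
    constructor
    · rintro ⟨hs, hs'⟩
      obtain ⟨t, ht⟩ : ∃ t : LV A y, ((t : A.perp y) : Fin m → ℝ) = s := ⟨⟨⟨s, hs⟩, hs'⟩, rfl⟩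
      refine ⟨fun i => bz.repr t i, ?_⟩
      rw [← hsum, bz.sum_repr, ht]
    · rintro ⟨n, hn⟩
      rw [hn, ← hsum n]
      exact ⟨((∑ i, n i • bz i : LV A y) : A.perp y).2, (∑ i, n i • bz i : LV A y).2⟩

end VA

end Pool.Agent.J4H71.CI
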