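import Mathlib

/-! Project CI (helper20), job BAS (helper71): matrices. -/

open scoped Topology ContDiff
open Matrix

noncomputable section

namespace Pool.Agent.J4H71.CI

section smooth

variable {X : Type*} [NormedAddCommGroup X] [NormedSpace ℝ X] {d m : ℕ}

lemma contDiffAt_det {M : X → Matrix (Fin d) (Fin d) ℝ} {x : X}
    (h : ∀ i j, ContDiffAt ℝ ∞ (fun y => M y i j) x) :
    ContDiffAt ℝ ∞ (fun y => (M y).det) x := by
  simp only [Matrix.det_apply']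
  refine ContDiffAt.sum fun σ _ => ?_
  exact contDiffAt_const.mul (contDiffAt_prod fun i _ => h _ _)

lemma contDiffAt_inv {M : X → Matrix (Fin d) (Fin d) ℝ} {x : X} (hdet : (M x).det ≠ 0)
    (h : ∀ i j, ContDiffAt ℝ ∞ (fun y => M y i j) x) (i j : Fin d) :
    ContDiffAt ℝ ∞ (fun y => (M y)⁻¹ i j) x := by
  have e : (fun y => (M y)⁻¹ i j) =
      fun y => ((M y).det)⁻¹ * ((M y).updateRow j (Pi.single i 1)).det := by
    funext y
    rw [Matrix.inv_def, Matrix.smul_apply, Ring.inverse_eq_inv', Matrix.adjugate_apply,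
      smul_eq_mul]
  rw [e]
  refine (ContDiffAt.inv (contDiffAt_det h) hdet).mul (contDiffAt_det fun a b => ?_)
  by_cases ha : a = j
  · subst ha
    simp only [Matrix.updateRow_self]
    exact contDiffAt_const
  · simp only [Matrix.updateRow_ne ha]
    exact h a b

lemma contDiffAt_solve {M : X → Matrix (Fin d) (Fin d) ℝ} {w : X → Fin d → ℝ} {x : X}
    (hdet : (M x).det ≠ 0) (hM : ∀ i j, ContDiffAt ℝ ∞ (fun y => M y i j) x)
    (hw : ∀ i, ContDiffAt ℝ ∞ (fun y => w y i) x) (i : Fin d) :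
    ContDiffAt ℝ ∞ (fun y => ((M y)⁻¹ *ᵥ (w y)) i) x := by
  simp only [Matrix.mulVec, dotProduct]
  exact ContDiffAt.sum fun j _ => (contDiffAt_inv hdet hM i j).mul (hw j)

/-- the orthogonal projection on the row space of `G` (if the rows are independent) -/
def PP (G : Fin d → Fin m → ℝ) (v : Fin m → ℝ) : Fin m → ℝ :=
  (of G)ᵀ *ᵥ ((of G * (of G)ᵀ)⁻¹ *ᵥ (of G *ᵥ v))

lemma contDiffAt_PP {p : (Fin d → Fin m → ℝ) × (Fin m → ℝ)}
    (hdet : (of p.1 * (of p.1)ᵀ).det ≠ 0) :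
    ContDiffAt ℝ ∞ (fun p : (Fin d → Fin m → ℝ) × (Fin m → ℝ) => PP p.1 p.2) p := by
  rw [contDiffAt_pi]
  intro k
  have h1 : ∀ i, ContDiffAt ℝ ∞ (fun p : (Fin d → Fin m → ℝ) × (Fin m → ℝ) =>
      ((of p.1 * (of p.1)ᵀ)⁻¹ *ᵥ (of p.1 *ᵥ p.2)) i) p := by
    refine contDiffAt_solve hdet (fun i j => ?_) fun i => ?_
    · simp only [Matrix.mul_apply, Matrix.transpose_apply, Matrix.of_apply]
      fun_prop
    · simp only [Matrix.mulVec, dotProduct, Matrix.of_apply]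
      fun_prop
  show ContDiffAt ℝ ∞ (fun p : (Fin d → Fin m → ℝ) × (Fin m → ℝ) =>
    ∑ j, p.1 j k * ((of p.1 * (of p.1)ᵀ)⁻¹ *ᵥ (of p.1 *ᵥ p.2)) j) p
  refine ContDiffAt.sum fun j _ => ContDiffAt.mul ?_ (h1 j)
  fun_prop

/-- coordinates with respect to vectors `b` -/
def SS (b : Fin d → Fin m → ℝ) (G : Fin d → Fin m → ℝ) (v : Fin m → ℝ) : Fin d → ℝ :=
  (of G * (of b)ᵀ)⁻¹ *ᵥ (of G *ᵥ v)

lemma contDiffAt_SS (b : Fin d → Fin m → ℝ) {p : (Fin d → Fin m → ℝ) × (Fin m → ℝ)}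
    (hdet : (of p.1 * (of b)ᵀ).det ≠ 0) :
    ContDiffAt ℝ ∞ (fun p : (Fin d → Fin m → ℝ) × (Fin m → ℝ) => SS b p.1 p.2) p := by
  rw [contDiffAt_pi]
  intro k
  have h1 : ∀ i j, ContDiffAt ℝ ∞ (fun p : (Fin d → Fin m → ℝ) × (Fin m → ℝ) =>
      (of p.1 * (of b)ᵀ) i j) p := by
    intro i j
    show ContDiffAt ℝ ∞ (fun p : (Fin d → Fin m → ℝ) × (Fin m → ℝ) => ∑ k, p.1 i k * b j k) p
    fun_prop
  have h2 : ∀ i, ContDiffAt ℝ ∞ (fun p : (Fin d → Fin m → ℝ) × (Fin m → ℝ) =>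
      (of p.1 *ᵥ p.2) i) p := by
    intro i
    show ContDiffAt ℝ ∞ (fun p : (Fin d → Fin m → ℝ) × (Fin m → ℝ) => ∑ k, p.1 i k * p.2 k) p
    fun_prop
  exact contDiffAt_solve (M := fun p : (Fin d → Fin m → ℝ) × (Fin m → ℝ) => of p.1 * (of b)ᵀ)
    (w := fun p : (Fin d → Fin m → ℝ) × (Fin m → ℝ) => of p.1 *ᵥ p.2) hdet h1 h2 k

end smooth

section alg

variable {d m : ℕ} {G : Fin d → Fin m → ℝ}

lemma G_PP (hdet : (of G * (of G)ᵀ).det ≠ 0) (v : Fin m → ℝ) : of G *ᵥ PP G v = of G *ᵥ v := by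
  unfold PP
  rw [Matrix.mulVec_mulVec, Matrix.mulVec_mulVec, Matrix.mul_nonsing_inv _ (Ne.isUnit hdet),
    Matrix.one_mulVec]

lemma PP_perp (v : Fin m → ℝ) {c : Fin m → ℝ} (hc : of G *ᵥ c = 0) :
    ∑ i, c i * PP G v i = 0 := by
  show c ⬝ᵥ ((of G)ᵀ *ᵥ _) = 0
  rw [Matrix.dotProduct_mulVec, Matrix.vecMul_transpose, hc, zero_dotProduct]

lemma surj_of_det (hdet : (of G * (of G)ᵀ).det ≠ 0) (u : Fin d → ℝ) : ∃ v, of G *ᵥ v = u := by
  refine ⟨(of G)ᵀ *ᵥ ((of G * (of G)ᵀ)⁻¹ *ᵥ u), ?_⟩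
  rw [Matrix.mulVec_mulVec, Matrix.mulVec_mulVec, Matrix.mul_nonsing_inv _ (Ne.isUnit hdet),
    Matrix.one_mulVec]

lemma det_of_surj (h : ∀ u : Fin d → ℝ, ∃ v, of G *ᵥ v = u) : (of G * (of G)ᵀ).det ≠ 0 := by
  intro hdet
  obtain ⟨u, hu0, hu⟩ := Matrix.exists_mulVec_eq_zero_iff.2 hdet
  apply hu0
  have h1 : (of G)ᵀ *ᵥ u = 0 := by
    rw [← dotProduct_self_eq_zero]
    have h2 : u ⬝ᵥ ((of G * (of G)ᵀ) *ᵥ u) = 0 := by rw [hu, dotProduct_zero]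
    rw [← Matrix.mulVec_mulVec, Matrix.dotProduct_mulVec, ← Matrix.mulVec_transpose] at h2
    exact h2
  obtain ⟨v, hv⟩ := h u
  rw [← dotProduct_self_eq_zero]
  have h3 : u ⬝ᵥ u = u ⬝ᵥ (of G *ᵥ v) := by rw [hv]
  rw [h3, Matrix.dotProduct_mulVec, ← Matrix.mulVec_transpose, h1, zero_dotProduct]

lemma finrank_ker (hdet : (of G * (of G)ᵀ).det ≠ 0) :
    Module.finrank ℝ (LinearMap.ker (of G).mulVecLin) + d = m := by
  have h1 := LinearMap.finrank_range_add_finrank_ker (of G).mulVecLin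
  have h2 : LinearMap.range (of G).mulVecLin = ⊤ := by
    rw [LinearMap.range_eq_top]
    intro u
    exact surj_of_det hdet u
  rw [h2, finrank_top, Module.finrank_fin_fun, Module.finrank_fin_fun] at h1
  omega

lemma G_SS {b : Fin d → Fin m → ℝ} (hdet : (of G * (of b)ᵀ).det ≠ 0) (v : Fin m → ℝ) :
    of G *ᵥ (∑ i, SS b G v i • b i) = of G *ᵥ v := by
  have h1 : ∑ i, SS b G v i • b i = (of b)ᵀ *ᵥ SS b G v := by
    funext k
    rw [Finset.sum_apply]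
    show ∑ i, SS b G v i * b i k = ∑ i, b i k * SS b G v i
    exact Finset.sum_congr rfl fun i _ => mul_comm _ _
  rw [h1]
  unfold SS
  rw [Matrix.mulVec_mulVec, Matrix.mulVec_mulVec, Matrix.mul_nonsing_inv _ (Ne.isUnit hdet),
    Matrix.one_mulVec]

end alg

end Pool.Agent.J4H71.CI
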