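import Pool.Agent.J4H71.CI.Lat
import Pool.Agent.J4H71.CI.BasM

/-! Project CI (helper20), job BAS (helper71): smooth local bases of the period lattices. -/

open scoped Topology ContDiff Manifold
open Set Metric Module Bundle Matrix

noncomputable section

namespace Pool.Agent.J4H71.CI

open Pool.Agent.J4H20.CI

set_option linter.unusedSectionVars false

universe u v

section VA

variable {E : Type u} [NormedAddCommGroup E] [NormedSpace ℝ E] [FiniteDimensional ℝ E]
  {N : Type v} [TopologicalSpace N] [ChartedSpace E N] [IsManifold 𝓘(ℝ, E) ∞ N] {m d : ℕ}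

/-- the generators in the trivialisation at `y₀` -/
def TTL (A : VA E N m) (y₀ y : N) : (Fin m → ℝ) →ₗ[ℝ] E :=
  ((trivializationAt E (TangentSpace 𝓘(ℝ, E)) y₀).linearMapAt ℝ y : TangentSpace 𝓘(ℝ, E) y →ₗ[ℝ] E)
    ∘ₗ (A.XL y)

lemma TTL_eq (A : VA E N m) (y₀ y : N) (κ : Fin m → ℝ)
    (hy : y ∈ (trivializationAt E (TangentSpace 𝓘(ℝ, E)) y₀).baseSet) :
    TTL A y₀ y κ = (trivializationAt E (TangentSpace 𝓘(ℝ, E)) y₀ ⟨y, A.X κ y⟩).2 := by
  classical
  show (trivializationAt E (TangentSpace 𝓘(ℝ, E)) y₀).linearMapAt ℝ y (A.X κ y) = _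
  rw [Bundle.Trivialization.linearMapAt_apply, if_pos hy]

lemma TTL_zero_iff (A : VA E N m) (y₀ y : N) (κ : Fin m → ℝ)
    (hy : y ∈ (trivializationAt E (TangentSpace 𝓘(ℝ, E)) y₀).baseSet) :
    TTL A y₀ y κ = 0 ↔ κ ∈ LinearMap.ker (A.XL y) := by
  show (trivializationAt E (TangentSpace 𝓘(ℝ, E)) y₀).linearMapAt ℝ y (A.X κ y) = 0 ↔ A.X κ y = 0
  rw [Bundle.Trivialization.linearMapAt_def_of_mem _ hy]
  exact LinearEquiv.map_eq_zero_iff _

lemma smooth_TTL (A : VA E N m) (y₀ y : N) (κ : Fin m → ℝ)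
    (hy : y ∈ (trivializationAt E (TangentSpace 𝓘(ℝ, E)) y₀).baseSet) :
    ContMDiffAt 𝓘(ℝ, E) 𝓘(ℝ, E) ∞ (fun y => TTL A y₀ y κ) y := by
  have h1 := ((trivializationAt E (TangentSpace 𝓘(ℝ, E)) y₀).contMDiffAt_section_iff hy).1
    ((A.smooth_X κ) y)
  refine h1.congr_of_eventuallyEq ?_
  filter_upwards [(trivializationAt E (TangentSpace 𝓘(ℝ, E)) y₀).open_baseSet.mem_nhds hy] with z hz
  exact TTL_eq A y₀ z κ hz

/-- the matrix of the generators -/
def GG (A : VA E N m) (y₀ : N) (pr : E →ₗ[ℝ] (Fin d → ℝ)) (y : N) : Fin d → Fin m → ℝ :=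
  fun j k => pr (TTL A y₀ y (Pi.single k 1)) j

lemma GG_mulVec (A : VA E N m) (y₀ : N) (pr : E →ₗ[ℝ] (Fin d → ℝ)) (y : N) (κ : Fin m → ℝ) :
    of (GG A y₀ pr y) *ᵥ κ = pr (TTL A y₀ y κ) :=
  LinearMap.toMatrix'_mulVec (pr ∘ₗ TTL A y₀ y) κ

lemma smooth_GG (A : VA E N m) (y₀ y : N) (pr : E →ₗ[ℝ] (Fin d → ℝ))
    (hy : y ∈ (trivializationAt E (TangentSpace 𝓘(ℝ, E)) y₀).baseSet) :
    ContMDiffAt 𝓘(ℝ, E) 𝓘(ℝ, Fin d → Fin m → ℝ) ∞ (GG A y₀ pr) y := by
  rw [contMDiffAt_pi_space]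
  intro j
  rw [contMDiffAt_pi_space]
  intro k
  let L : E →L[ℝ] ℝ := LinearMap.toContinuousLinearMap ((LinearMap.proj j) ∘ₗ pr)
  exact (L.contDiff.contDiffAt).comp_contMDiffAt (smooth_TTL A y₀ y (Pi.single k 1) hy)

lemma ker_GG (A : VA E N m) (y₀ y : N) (pr : E →ₗ[ℝ] (Fin d → ℝ))
    (hy : y ∈ (trivializationAt E (TangentSpace 𝓘(ℝ, E)) y₀).baseSet) (hod : A.od y = d)
    (hdet : (of (GG A y₀ pr y) * (of (GG A y₀ pr y))ᵀ).det ≠ 0) {κ : Fin m → ℝ}
    (h : of (GG A y₀ pr y) *ᵥ κ = 0) : κ ∈ LinearMap.ker (A.XL y) := by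
  have h1 : LinearMap.ker (A.XL y) ≤ LinearMap.ker (of (GG A y₀ pr y)).mulVecLin := by
    intro c hc
    rw [LinearMap.mem_ker, Matrix.mulVecLin_apply, GG_mulVec, (TTL_zero_iff A y₀ y c hy).2 hc,
      map_zero]
  have h2 := finrank_ker hdet
  have h3 := LinearMap.finrank_range_add_finrank_ker (A.XL y)
  rw [Module.finrank_fin_fun] at h3
  have h4 : finrank ℝ (LinearMap.range (A.XL y)) = d := hod
  have h5 := Submodule.eq_of_le_of_finrank_eq h1 (by omega)
  rw [h5]
  exact h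

lemma act_intsum (A : VA E N m) {y : N} {v : Fin d → Fin m → ℝ} (h : ∀ i, A.act (v i) y = y)
    (n : Fin d → ℤ) : A.act (∑ i, (n i : ℝ) • v i) y = y := by
  let H : AddSubgroup (Fin m → ℝ) :=
    { carrier := {s | A.act s y = y}
      add_mem' := by
        intro s t hs ht
        exact act_add_fix A hs ht
      zero_mem' := A.zero y
      neg_mem' := by
        intro s hs
        exact act_neg_fix A hs }
  have h1 : ∑ i, (n i : ℝ) • v i ∈ H := by
    refine H.sum_mem fun i _ => ?_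
    rw [Int.cast_smul_eq_zsmul]
    exact H.zsmul_mem (h i) _
  exact h1

end VA

theorem t_BAS : S_BAS.{u, v} := by
  intro E _ _ _ N _ _ _ _ m A μ hμ hLOC d hod hlat y₀
  obtain ⟨b, hbLI, hb⟩ := hlat y₀
  obtain ⟨U, σ, ε, hUo, hyU, hε, hσ, hσp, hσ1, hσ2⟩ := hLOC E N m A μ hμ y₀
  set e := trivializationAt E (TangentSpace 𝓘(ℝ, E)) y₀ with he
  have hye : y₀ ∈ e.baseSet := FiberBundle.mem_baseSet_trivializationAt' y₀
  have hbL : ∀ i, b i ∈ A.Lat y₀ := by
    intro i
    rw [hb]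
    refine ⟨Pi.single i 1, ?_⟩
    rw [Finset.sum_eq_single i]
    · simp
    · intro j _ hj
      simp [Pi.single_apply, hj]
    · intro h
      exact absurd (Finset.mem_univ i) h
  -- the coordinates `pr`
  obtain ⟨pr, hpr⟩ : ∃ pr : E →ₗ[ℝ] (Fin d → ℝ), ∀ i, pr (TTL A y₀ y₀ (b i)) = Pi.single i 1 := by
    have h1 : LinearIndependent ℝ (TTL A y₀ y₀ ∘ b) := by
      refine hbLI.map ?_
      rw [Submodule.disjoint_def]
      intro s hs hk
      have h2 : Submodule.span ℝ (range b) ≤ A.perp y₀ := by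
        rw [Submodule.span_le]
        rintro _ ⟨i, rfl⟩
        exact (hbL i).1
      exact ker_inf_perp A y₀ ((TTL_zero_iff A y₀ y₀ s hye).1 hk) (h2 hs)
    have h2 := h1.fintypeLinearCombination_injective
    obtain ⟨g, hg⟩ := LinearMap.exists_leftInverse_of_injective
      (Fintype.linearCombination ℝ (TTL A y₀ y₀ ∘ b)) (LinearMap.ker_eq_bot.2 h2)
    refine ⟨g, fun i => ?_⟩
    have h3 := LinearMap.congr_fun hg (Pi.single i 1)
    rw [LinearMap.comp_apply, Fintype.linearCombination_apply_single, one_smul] at h3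
    exact h3
  set G : N → Fin d → Fin m → ℝ := GG A y₀ pr with hG
  have hGb : ∀ i, of (G y₀) *ᵥ b i = Pi.single i 1 := by
    intro i
    rw [hG, GG_mulVec, hpr]
  have hGsum : ∀ u : Fin d → ℝ, of (G y₀) *ᵥ (∑ i, u i • b i) = u := by
    intro u
    rw [Matrix.mulVec_sum]
    simp only [Matrix.mulVec_smul, hGb]
    funext j
    simp [Finset.sum_apply, Pi.single_apply]
  have hdet₀ : (of (G y₀) * (of (G y₀))ᵀ).det ≠ 0 := det_of_surj fun u => ⟨_, hGsum u⟩
  have hdet₁ : (of (G y₀) * (of b)ᵀ).det ≠ 0 := by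
    have h1 : of (G y₀) * (of b)ᵀ = 1 := by
      ext i j
      have h2 := congrFun (hGb j) i
      rw [Matrix.one_apply, Matrix.mul_apply]
      calc ∑ k, of (G y₀) i k * (of b)ᵀ k j = (of (G y₀) *ᵥ b j) i := rfl
        _ = _ := by rw [h2, Pi.single_apply]
    rw [h1, Matrix.det_one]
    exact one_ne_zero
  -- the candidates
  set β : Fin d → N → (Fin m → ℝ) := fun i y => b i - (σ (A.act (b i) y) - σ y) with hβ
  set bb : N → Fin d → Fin m → ℝ := fun y i => PP (G y) (β i y) with hbb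
  have hβfix : ∀ i y, y ∈ U → A.act (b i) y ∈ U → A.act (β i y) y = y := by
    intro i y hy hy'
    have h1 := hσ1 y hy _ hy' (hμ.inv (b i) y).symm
    obtain ⟨δ, hδ⟩ : ∃ δ, δ = σ (A.act (b i) y) - σ y := ⟨_, rfl⟩
    have h2 : β i y = -δ + b i := by
      show b i - (σ (A.act (b i) y) - σ y) = _
      rw [← hδ]
      abel
    rw [← hδ] at h1
    rw [h2, A.add, ← h1, ← A.add, neg_add_cancel, A.zero]
  have hβ₀ : ∀ i, β i y₀ = b i := by
    intro i
    rw [hβ]
    simp only [(hbL i).2, sub_self, sub_zero]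
  have hdiff : ∀ y ∈ e.baseSet, (of (G y) * (of (G y))ᵀ).det ≠ 0 → ∀ v : Fin m → ℝ,
      v - PP (G y) v ∈ LinearMap.ker (A.XL y) := by
    intro y hy hdet v
    refine ker_GG A y₀ y pr hy (hod y) hdet ?_
    rw [Matrix.mulVec_sub, G_PP hdet, sub_self]
  have hperp : ∀ y ∈ e.baseSet, ∀ v : Fin m → ℝ, PP (G y) v ∈ A.perp y := by
    intro y hy v c hc
    refine PP_perp v ?_
    rw [hG, GG_mulVec, (TTL_zero_iff A y₀ y c hy).2 hc, map_zero]
  have hbbLat : ∀ y ∈ U, y ∈ e.baseSet → (of (G y) * (of (G y))ᵀ).det ≠ 0 →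
      (∀ i, A.act (b i) y ∈ U) → ∀ i, bb y i ∈ A.Lat y := by
    intro y hyU hy hdet hU i
    refine ⟨hperp y hy _, ?_⟩
    have h1 : bb y i = β i y - (β i y - PP (G y) (β i y)) := by
      rw [hbb]
      abel
    rw [h1]
    exact act_sub_fix A (hβfix i y hyU (hU i)) (act_ker A (hdiff y hy hdet _))
  have hbb₀ : bb y₀ = b := by
    funext i
    have h1 : b i - PP (G y₀) (b i) = 0 :=
      ker_inf_perp A y₀ (hdiff y₀ hye hdet₀ _) ((A.perp y₀).sub_mem (hbL i).1 (hperp y₀ hye _))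
    rw [hbb]
    simp only [hβ₀]
    exact (sub_eq_zero.1 h1).symm
  -- smoothness
  have hsm : ∀ y ∈ U, y ∈ e.baseSet → (of (G y) * (of (G y))ᵀ).det ≠ 0 →
      (∀ i, A.act (b i) y ∈ U) → ContMDiffAt 𝓘(ℝ, E) 𝓘(ℝ, Fin d → Fin m → ℝ) ∞ bb y := by
    intro y hyU hy hdet hU
    rw [contMDiffAt_pi_space]
    intro i
    have h1 : ContMDiffAt 𝓘(ℝ, E) 𝓘(ℝ, Fin m → ℝ) ∞ (β i) y := by
      have h2 : ContMDiffAt 𝓘(ℝ, E) 𝓘(ℝ, Fin m → ℝ) ∞ (fun y => σ (A.act (b i) y)) y :=
        (hσ.contMDiffAt (hUo.mem_nhds (hU i))).comp y ((A.smooth_right (b i)) y)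
      have h3 : ContMDiffAt 𝓘(ℝ, E) 𝓘(ℝ, Fin m → ℝ) ∞ σ y := hσ.contMDiffAt (hUo.mem_nhds hyU)
      exact contMDiffAt_const.sub (h2.sub h3)
    exact ContDiffAt.comp_contMDiffAt (g := fun p : (Fin d → Fin m → ℝ) × (Fin m → ℝ) => PP p.1 p.2)
      (f := fun y => (G y, β i y)) (contDiffAt_PP hdet)
      ((smooth_GG A y₀ y pr hy).prodMk_space h1)
  -- the neighbourhood
  have hcG : ContinuousAt G y₀ := (smooth_GG A y₀ y₀ pr hye).continuousAt
  have hev1 : ∀ᶠ y in 𝓝 y₀, y ∈ U := hUo.mem_nhds hyU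
  have hev2 : ∀ᶠ y in 𝓝 y₀, y ∈ e.baseSet := e.open_baseSet.mem_nhds hye
  have hev3 : ∀ᶠ y in 𝓝 y₀, (of (G y) * (of (G y))ᵀ).det ≠ 0 := by
    have h1 : Continuous fun g : Fin d → Fin m → ℝ => (of g * (of g)ᵀ).det := by
      refine Continuous.matrix_det ?_
      exact Continuous.matrix_mul continuous_id (Continuous.matrix_transpose continuous_id)
    have h2 : ContinuousAt (fun y => (of (G y) * (of (G y))ᵀ).det) y₀ := h1.continuousAt.comp hcG
    exact h2.eventually_ne hdet₀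
  have hev4 : ∀ᶠ y in 𝓝 y₀, ∀ i, A.act (b i) y ∈ U := by
    rw [Filter.eventually_all]
    intro i
    have h1 : ContinuousAt (A.act (b i)) y₀ := (A.smooth_right (b i)).continuous.continuousAt
    refine h1.eventually ?_
    rw [(hbL i).2]
    exact hUo.mem_nhds hyU
  have hcbb : ContinuousAt bb y₀ :=
    (hsm y₀ hyU hye hdet₀ fun i => by rw [(hbL i).2]; exact hyU).continuousAt
  have hev5 : ∀ᶠ y in 𝓝 y₀, LinearIndependent ℝ (bb y) := by
    have h1 : {v : Fin d → Fin m → ℝ | LinearIndependent ℝ v} ∈ 𝓝 (bb y₀) := by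
      rw [hbb₀]
      exact isOpen_setOfPred_linearIndependent.mem_nhds hbLI
    filter_upwards [hcbb h1] with y hy
    exact hy
  have hev6 : ∀ᶠ y in 𝓝 y₀, ∀ θ ∈ Icc (fun _ : Fin d => (-(1 / 2) : ℝ)) (fun _ => 1 / 2),
      A.act (∑ i, θ i • bb y i) y = y → ∑ i, θ i • bb y i = 0 := by
    refine isCompact_Icc.eventually_forall_of_forall_eventually fun θ₀ hθ₀ => ?_
    -- continuity of the sum
    have hcs : ContinuousAt (fun z : N × (Fin d → ℝ) => ∑ i, z.2 i • bb z.1 i) (y₀, θ₀) := by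
      refine tendsto_finsetSum _ fun i _ => ?_
      have h1 : ContinuousAt (fun z : N × (Fin d → ℝ) => bb z.1) (y₀, θ₀) :=
        ContinuousAt.comp (g := bb) (f := Prod.fst) (x := (y₀, θ₀)) hcbb continuousAt_fst
      have h2 : ContinuousAt (fun z : N × (Fin d → ℝ) => bb z.1 i) (y₀, θ₀) :=
        (continuous_apply i).continuousAt.comp h1
      have h3 : ContinuousAt (fun z : N × (Fin d → ℝ) => z.2 i) (y₀, θ₀) :=
        ((continuous_apply i).comp continuous_snd).continuousAt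
      exact h3.smul h2
    by_cases hθ : θ₀ = 0
    · subst hθ
      have hs0 : ∑ i, (0 : Fin d → ℝ) i • bb y₀ i = 0 := by simp
      have hGz : ContinuousAt (fun z : N × (Fin d → ℝ) => G z.1) (y₀, 0) :=
        ContinuousAt.comp (g := G) (f := Prod.fst) (x := (y₀, (0 : Fin d → ℝ))) hcG continuousAt_fst
      have hu : ContinuousAt (fun z : N × (Fin d → ℝ) =>
          ∑ i, SS b (G z.1) (∑ i, z.2 i • bb z.1 i) i • b i) (y₀, 0) := by
        have h1 : ContinuousAt (fun z : N × (Fin d → ℝ) =>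
            SS b (G z.1) (∑ i, z.2 i • bb z.1 i)) (y₀, 0) := by
          have h2 : ContinuousAt (fun p : (Fin d → Fin m → ℝ) × (Fin m → ℝ) => SS b p.1 p.2)
              (G y₀, ∑ i, (0 : Fin d → ℝ) i • bb y₀ i) := (contDiffAt_SS b hdet₁).continuousAt
          exact ContinuousAt.comp (g := fun p : (Fin d → Fin m → ℝ) × (Fin m → ℝ) => SS b p.1 p.2)
            (f := fun z : N × (Fin d → ℝ) => (G z.1, ∑ i, z.2 i • bb z.1 i)) h2
            (hGz.prodMk hcs)
        refine tendsto_finsetSum _ fun i _ => ?_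
        exact ((continuous_apply i).continuousAt.comp h1).smul continuousAt_const
      have hu0 : ∑ i, SS b (G y₀) (∑ i, (0 : Fin d → ℝ) i • bb y₀ i) i • b i = 0 := by
        rw [hs0]
        unfold SS
        rw [Matrix.mulVec_zero, Matrix.mulVec_zero]
        simp
      have hn : ∀ᶠ z in 𝓝 (y₀, (0 : Fin d → ℝ)),
          ‖∑ i, SS b (G z.1) (∑ i, z.2 i • bb z.1 i) i • b i‖ < ε := by
        have h1 := hu.norm
        refine h1.eventually_lt continuousAt_const ?_
        rw [hu0, norm_zero]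
        exact hε
      have hd1 : ∀ᶠ z in 𝓝 (y₀, (0 : Fin d → ℝ)), (of (G z.1) * (of b)ᵀ).det ≠ 0 := by
        have h1 : Continuous fun g : Fin d → Fin m → ℝ => (of g * (of b)ᵀ).det := by
          refine Continuous.matrix_det ?_
          exact Continuous.matrix_mul continuous_id continuous_const
        have h2 : ContinuousAt (fun z : N × (Fin d → ℝ) => (of (G z.1) * (of b)ᵀ).det) (y₀, 0) :=
          h1.continuousAt.comp hGz
        exact h2.eventually_ne hdet₁
      have hfst : Filter.Tendsto Prod.fst (𝓝 (y₀, (0 : Fin d → ℝ))) (𝓝 y₀) := continuousAt_fst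
      filter_upwards [hn, hd1, hfst.eventually hev1, hfst.eventually hev2, hfst.eventually hev3,
        hfst.eventually hev4] with z k1 k2 k3 k4 k5 k6 hz
      have hp : ∑ i, z.2 i • bb z.1 i ∈ A.perp z.1 :=
        (A.perp z.1).sum_mem fun i _ => (A.perp z.1).smul_mem _ (hbbLat z.1 k3 k4 k5 k6 i).1
      obtain ⟨lam, hlam⟩ : ∃ lam, lam = ∑ i, z.2 i • bb z.1 i := ⟨_, rfl⟩
      rw [← hlam] at k1 hz hp ⊢
      have hk : lam - ∑ i, SS b (G z.1) lam i • b i ∈ LinearMap.ker (A.XL z.1) := by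
        refine ker_GG A y₀ z.1 pr k4 (hod z.1) k5 ?_
        show of (G z.1) *ᵥ (lam - ∑ i, SS b (G z.1) lam i • b i) = 0
        rw [Matrix.mulVec_sub, G_SS k2, sub_self]
      have hs1 : A.act (∑ i, SS b (G z.1) lam i • b i) z.1 = z.1 := by
        have h1 : ∑ i, SS b (G z.1) lam i • b i = lam - (lam - ∑ i, SS b (G z.1) lam i • b i) := by
          abel
        rw [h1]
        exact act_sub_fix A hz (act_ker A hk)
      have hs2 := hσ2 z.1 k3 _ ((A.perp y₀).sum_mem fun i _ =>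
        (A.perp y₀).smul_mem _ (hbL i).1) k1 hs1
      rw [hs2, sub_zero] at hk
      exact ker_inf_perp A z.1 hk hp
    · have h0 : A.act (∑ i, θ₀ i • bb y₀ i) y₀ ≠ y₀ := by
        rw [hbb₀]
        intro h
        have h1 : (∑ i, θ₀ i • b i) ∈ A.Lat y₀ :=
          ⟨(A.perp y₀).sum_mem fun i _ => (A.perp y₀).smul_mem _ (hbL i).1, h⟩
        obtain ⟨n, hn⟩ := (hb _).1 h1
        have h2 : θ₀ = fun i => (n i : ℝ) :=
          hbLI.fintypeLinearCombination_injective (by
            rw [Fintype.linearCombination_apply, Fintype.linearCombination_apply]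
            exact hn)
        apply hθ
        funext i
        have h3 := hθ₀.1 i
        have h4 := hθ₀.2 i
        rw [h2] at h3 h4 ⊢
        simp only at h3 h4
        have h5 : (-1 : ℝ) < n i := by linarith
        have h6 : (n i : ℝ) < 1 := by linarith
        have h7 : (-1 : ℤ) < n i := by exact_mod_cast h5
        have h8 : n i < 1 := by exact_mod_cast h6
        have h9 : n i = 0 := by omega
        simp [h9]
      have hca : ContinuousAt (fun z : N × (Fin d → ℝ) => A.act (∑ i, z.2 i • bb z.1 i) z.1)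
          (y₀, θ₀) := by
        have h1 : Continuous (fun p : (Fin m → ℝ) × N => A.act p.1 p.2) := A.smooth.continuous
        exact ContinuousAt.comp (g := fun p : (Fin m → ℝ) × N => A.act p.1 p.2)
          (f := fun z : N × (Fin d → ℝ) => (∑ i, z.2 i • bb z.1 i, z.1)) h1.continuousAt
          (hcs.prodMk continuousAt_fst)
      have h1 : ∀ᶠ z in 𝓝 (y₀, θ₀), A.act (∑ i, z.2 i • bb z.1 i) z.1 ≠ z.1 := by
        have h2 : ContinuousAt (fun z : N × (Fin d → ℝ) =>
            (A.act (∑ i, z.2 i • bb z.1 i) z.1, z.1)) (y₀, θ₀) := hca.prodMk continuousAt_fst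
        have h3 : (Set.diagonal N)ᶜ ∈ 𝓝 (A.act (∑ i, θ₀ i • bb y₀ i) y₀, y₀) :=
          isClosed_diagonal.isOpen_compl.mem_nhds h0
        filter_upwards [h2 h3] with z hz
        exact hz
      filter_upwards [h1] with z hz h
      exact absurd h hz
  -- the conclusion
  obtain ⟨V, hVP, hVo, hyV⟩ := mem_nhds_iff.1
    (hev1.and (hev2.and (hev3.and (hev4.and (hev5.and hev6)))))
  refine ⟨V, bb, hVo, hyV, fun y hy => ?_, fun y hy => ?_⟩
  · obtain ⟨h1, h2, h3, h4, h5, h6⟩ := hVP hy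
    exact (hsm y h1 h2 h3 h4).contMDiffWithinAt
  · obtain ⟨h1, h2, h3, h4, h5, h6⟩ := hVP hy
    have hL := hbbLat y h1 h2 h3 h4
    refine ⟨h5, fun s => ⟨fun hs => ?_, ?_⟩⟩
    · let c : Fin d → A.perp y := fun i => ⟨bb y i, (hL i).1⟩
      have hc : LinearIndependent ℝ c := LinearIndependent.of_comp (A.perp y).subtype h5
      have hspan := hc.span_eq_top_of_card_eq_finrank' (by
        rw [Fintype.card_fin, finrank_perp, hod])
      have hmem : (⟨s, hs.1⟩ : A.perp y) ∈ Submodule.span ℝ (range c) := by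
        rw [hspan]
        exact Submodule.mem_top
      obtain ⟨t, ht⟩ := (Submodule.mem_span_range_iff_exists_fun ℝ).1 hmem
      have ht' : ∑ i, t i • bb y i = s := by
        have := congrArg (A.perp y).subtype ht
        rw [map_sum] at this
        exact this
      have hfix := act_intsum A (fun i => (hL i).2) (fun i => round (t i))
      have h7 : ∑ i, (t i - round (t i)) • bb y i = s - ∑ i, ((round (t i) : ℤ) : ℝ) • bb y i := by
        rw [← ht', ← Finset.sum_sub_distrib]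
        exact Finset.sum_congr rfl fun i _ => sub_smul _ _ _
      have h8 := h6 (fun i => t i - round (t i)) ⟨fun i => ?_, fun i => ?_⟩ ?_
      · refine ⟨fun i => round (t i), ?_⟩
        have h9 : ∑ i, (t i - round (t i)) • bb y i = 0 := h8
        rw [h7] at h9
        exact sub_eq_zero.1 h9
      · exact (abs_le.1 (abs_sub_round (t i))).1
      · exact (abs_le.1 (abs_sub_round (t i))).2
      · show A.act (∑ i, (t i - round (t i)) • bb y i) y = y
        rw [h7]
        exact act_sub_fix A hs.2 hfix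
    · rintro ⟨n, rfl⟩
      exact ⟨(A.perp y).sum_mem fun i _ => (A.perp y).smul_mem _ (hL i).1,
        act_intsum A (fun i => (hL i).2) n⟩

end Pool.Agent.J4H71.CI
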